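import Mathlib

/-!
# Edmonds' theorem on disjoint spanning arborescences (Lovasz' proof)

`edmonds`: if every nonempty set of non-root vertices is entered by at least `m` arcs, there are
`m` pairwise disjoint spanning arborescences rooted at `r0`.
`edmonds_cap`: the capacitated form.
-/

set_option autoImplicit false

set_option linter.unusedSectionVars false

namespace Pool.Agent.Edm

variable {V A : Type} [Fintype V] [Fintype A] [DecidableEq V] [DecidableEq A]

/-- arcs of `F` entering `X` -/
def ent (tail head : A → V) (F : Finset A) (X : Finset V) : Finset A :=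
  F.filter (fun a => head a ∈ X ∧ tail a ∉ X)

/-- spanning arborescence rooted at `r0` -/
def Arb (tail head : A → V) (r0 : V) (T : Finset A) : Prop :=
  (∀ a ∈ T, head a ≠ r0) ∧
  (∀ v : V, v ≠ r0 → ∃! a : A, a ∈ T ∧ head a = v) ∧
  (∀ v : V, Relation.ReflTransGen (fun x y : V => ∃ a ∈ T, tail a = x ∧ head a = y) r0 v)

omit [Fintype V] [Fintype A] [DecidableEq A] in
theorem mem_ent {tail head : A → V} {F : Finset A} {X : Finset V} {a : A} :
    a ∈ ent tail head F X ↔ a ∈ F ∧ head a ∈ X ∧ tail a ∉ X := by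
  simp [ent]

omit [Fintype V] [Fintype A] [DecidableEq A] in
theorem ent_submod (tail head : A → V) (F : Finset A) (X Y : Finset V) :
    (ent tail head F (X ∩ Y)).card + (ent tail head F (X ∪ Y)).card ≤
      (ent tail head F X).card + (ent tail head F Y).card := by
  unfold ent
  simp only [Finset.card_filter]
  rw [← Finset.sum_add_distrib, ← Finset.sum_add_distrib]
  refine Finset.sum_le_sum (fun a _ => ?_)
  simp only [Finset.mem_inter, Finset.mem_union]
  by_cases h1 : head a ∈ X <;> by_cases h2 : head a ∈ Y <;> by_cases h3 : tail a ∈ X <;>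
    by_cases h4 : tail a ∈ Y <;> simp [h1, h2, h3, h4]

omit [Fintype V] [DecidableEq V] in
theorem rmono {p q : V → V → Prop} (h : ∀ x y, p x y → q x y) {a b : V}
    (hab : Relation.ReflTransGen p a b) : Relation.ReflTransGen q a b := by
  induction hab with
  | refl => exact Relation.ReflTransGen.refl
  | tail _ hbc ih => exact ih.tail (h _ _ hbc)

/-- the partial arborescences of Lovasz' proof -/
structure St (tail head : A → V) (r0 : V) (E : Finset A) (m : ℕ) (S : Finset V) (F : Finset A) :
    Prop where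
  r : r0 ∈ S
  sub : F ⊆ E
  hd : ∀ a ∈ F, head a ∈ S
  nr : ∀ a ∈ F, head a ≠ r0
  uniq : ∀ v ∈ S, v ≠ r0 → ∃! a : A, a ∈ F ∧ head a = v
  reach : ∀ v ∈ S, Relation.ReflTransGen (fun x y : V => ∃ a ∈ F, tail a = x ∧ head a = y) r0 v
  big : ∀ X : Finset V, X.Nonempty → r0 ∉ X → m ≤ (ent tail head (E \ F) X).card

omit [Fintype A] in
theorem exists_arc {tail head : A → V} {r0 : V} {E : Finset A} {m : ℕ}
    (hE : ∀ X : Finset V, X.Nonempty → r0 ∉ X → m + 1 ≤ (ent tail head E X).card)
    {S : Finset V} {F : Finset A} (h : St tail head r0 E m S F) (hS : S ≠ Finset.univ) :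
    ∃ a ∈ E \ F, tail a ∈ S ∧ head a ∉ S ∧
      ∀ Y : Finset V, r0 ∉ Y → (ent tail head (E \ F) Y).card = m → head a ∈ Y → tail a ∈ Y := by
  classical
  have key : ∀ X : Finset V, Disjoint X S → ent tail head (E \ F) X = ent tail head E X := by
    intro X hX
    ext a
    simp only [mem_ent, Finset.mem_sdiff]
    constructor
    · rintro ⟨⟨h1, _⟩, h2⟩; exact ⟨h1, h2⟩
    · rintro ⟨h1, h2, h3⟩
      refine ⟨⟨h1, fun h4 => ?_⟩, h2, h3⟩
      exact (Finset.disjoint_left.mp hX h2) (h.hd a h4)
  by_cases hne : ∃ X : Finset V, r0 ∉ X ∧ ¬ X ⊆ S ∧ (ent tail head (E \ F) X).card = m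
  · obtain ⟨X, hX, hmin⟩ := Finset.exists_min_image
      (Finset.univ.filter (fun X : Finset V => r0 ∉ X ∧ ¬ X ⊆ S ∧
        (ent tail head (E \ F) X).card = m)) (fun X => X.card)
      (by obtain ⟨X, hX⟩ := hne; exact ⟨X, by simpa using hX⟩)
    simp only [Finset.mem_filter, Finset.mem_univ, true_and] at hX hmin
    obtain ⟨hr, hXS, hXm⟩ := hX
    have h1 : (X \ S).Nonempty := by
      rw [Finset.nonempty_iff_ne_empty]
      intro h; exact hXS (Finset.sdiff_eq_empty_iff_subset.mp h)
    have h2 : m + 1 ≤ (ent tail head (E \ F) (X \ S)).card := by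
      rw [key _ Finset.sdiff_disjoint]
      exact hE _ h1 (fun h => hr (Finset.mem_sdiff.mp h).1)
    obtain ⟨a, ha1, ha2⟩ := Finset.exists_mem_notMem_of_card_lt_card
      (show (ent tail head (E \ F) X).card < (ent tail head (E \ F) (X \ S)).card by omega)
    rw [mem_ent] at ha1 ha2
    obtain ⟨haE, ha3, ha4⟩ := ha1
    rw [Finset.mem_sdiff] at ha3
    have ha5 : tail a ∈ X := by
      by_contra hc
      exact ha2 ⟨haE, ha3.1, hc⟩
    have ha6 : tail a ∈ S := by
      by_contra hc
      exact ha4 (Finset.mem_sdiff.mpr ⟨ha5, hc⟩)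
    refine ⟨a, haE, ha6, ha3.2, fun Y hrY hYm hY => ?_⟩
    have hsub := ent_submod tail head (E \ F) X Y
    have hI : m ≤ (ent tail head (E \ F) (X ∩ Y)).card :=
      h.big _ ⟨head a, Finset.mem_inter.mpr ⟨ha3.1, hY⟩⟩
        (fun hh => hr (Finset.mem_inter.mp hh).1)
    have hU : m ≤ (ent tail head (E \ F) (X ∪ Y)).card :=
      h.big _ ⟨head a, Finset.mem_union.mpr (Or.inl ha3.1)⟩
        (fun hh => by rcases Finset.mem_union.mp hh with h | h; exacts [hr h, hrY h])
    have hle := hmin (X ∩ Y) ⟨fun hh => hr (Finset.mem_inter.mp hh).1,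
      fun hh => ha3.2 (hh (Finset.mem_inter.mpr ⟨ha3.1, hY⟩)), by omega⟩
    have heq : X ∩ Y = X := Finset.eq_of_subset_of_card_le Finset.inter_subset_left hle
    exact (Finset.inter_eq_left.mp heq) ha5
  · have h1 : (Sᶜ).Nonempty := by
      rw [Finset.nonempty_iff_ne_empty]
      intro h; exact hS (by simpa using congrArg compl h)
    have h2 : m + 1 ≤ (ent tail head (E \ F) Sᶜ).card := by
      rw [key _ disjoint_compl_left]
      exact hE _ h1 (by simp [h.r])
    obtain ⟨a, ha⟩ : (ent tail head (E \ F) Sᶜ).Nonempty := by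
      rw [← Finset.card_pos]; omega
    rw [mem_ent] at ha
    obtain ⟨ha1, ha2, ha3⟩ := ha
    simp only [Finset.mem_compl, not_not] at ha2 ha3
    refine ⟨a, ha1, ha3, ha2, fun Y hrY hYm hY => ?_⟩
    exact absurd ⟨Y, hrY, fun hh => ha2 (hh hY), hYm⟩ hne

omit [Fintype A] in
theorem step_arc {tail head : A → V} {r0 : V} {E : Finset A} {m : ℕ}
    (hE : ∀ X : Finset V, X.Nonempty → r0 ∉ X → m + 1 ≤ (ent tail head E X).card)
    {S : Finset V} {F : Finset A} (h : St tail head r0 E m S F) (hS : S ≠ Finset.univ) :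
    ∃ a : A, a ∉ F ∧ head a ∉ S ∧ St tail head r0 E m (insert (head a) S) (insert a F) := by
  obtain ⟨a, haE, hat, hah, hY⟩ := exists_arc hE h hS
  rw [Finset.mem_sdiff] at haE
  refine ⟨a, haE.2, hah, ?_⟩
  have hnr : head a ≠ r0 := fun hh => hah (hh ▸ h.r)
  refine ⟨Finset.mem_insert_of_mem h.r, Finset.insert_subset haE.1 h.sub, ?_, ?_, ?_, ?_, ?_⟩
  · intro b hb
    rcases Finset.mem_insert.mp hb with rfl | hb
    · exact Finset.mem_insert_self _ _
    · exact Finset.mem_insert_of_mem (h.hd b hb)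
  · intro b hb
    rcases Finset.mem_insert.mp hb with rfl | hb
    · exact hnr
    · exact h.nr b hb
  · intro v hv hvr
    rcases Finset.mem_insert.mp hv with rfl | hvS
    · refine ⟨a, ⟨Finset.mem_insert_self _ _, rfl⟩, ?_⟩
      rintro b ⟨hb, hb2⟩
      rcases Finset.mem_insert.mp hb with rfl | hb
      · rfl
      · exact absurd (hb2 ▸ h.hd b hb) hah
    · obtain ⟨b, ⟨hb1, hb2⟩, hb3⟩ := h.uniq v hvS hvr
      refine ⟨b, ⟨Finset.mem_insert_of_mem hb1, hb2⟩, ?_⟩
      rintro b' ⟨hb', hb2'⟩
      rcases Finset.mem_insert.mp hb' with rfl | hb'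
      · exact absurd (hb2' ▸ hvS) hah
      · exact hb3 b' ⟨hb', hb2'⟩
  · have hmono : ∀ v ∈ S, Relation.ReflTransGen
        (fun x y : V => ∃ b ∈ insert a F, tail b = x ∧ head b = y) r0 v := by
      intro v hv
      refine rmono ?_ (h.reach v hv)
      rintro x y ⟨b, hb, hb2⟩
      exact ⟨b, Finset.mem_insert_of_mem hb, hb2⟩
    intro v hv
    rcases Finset.mem_insert.mp hv with rfl | hv
    · exact (hmono (tail a) hat).tail ⟨a, Finset.mem_insert_self _ _, rfl, rfl⟩
    · exact hmono v hv
  · intro X hX hrX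
    have h1 := h.big X hX hrX
    have h2 : ent tail head (E \ F) X ⊆ insert a (ent tail head (E \ insert a F) X) := by
      intro b hb
      rw [mem_ent, Finset.mem_sdiff] at hb
      by_cases hba : b = a
      · exact Finset.mem_insert.mpr (Or.inl hba)
      · refine Finset.mem_insert_of_mem ?_
        rw [mem_ent, Finset.mem_sdiff, Finset.mem_insert]
        exact ⟨⟨hb.1.1, by tauto⟩, hb.2⟩
    by_cases hc : head a ∈ X ∧ tail a ∉ X
    · have h3 : (ent tail head (E \ F) X).card ≠ m := fun hh => hc.2 (hY X hrX hh hc.1)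
      have h4 := (Finset.card_le_card h2).trans (Finset.card_insert_le _ _)
      omega
    · have h3 : ent tail head (E \ F) X ⊆ ent tail head (E \ insert a F) X := by
        intro b hb
        rcases Finset.mem_insert.mp (h2 hb) with rfl | hb2
        · exact absurd (mem_ent.mp hb).2 hc
        · exact hb2
      exact h1.trans (Finset.card_le_card h3)

theorem grow {tail head : A → V} {r0 : V} {E : Finset A} {m : ℕ}
    (hE : ∀ X : Finset V, X.Nonempty → r0 ∉ X → m + 1 ≤ (ent tail head E X).card) :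
    ∀ (n : ℕ) (S : Finset V) (F : Finset A), (Sᶜ).card = n → St tail head r0 E m S F →
      ∃ F' : Finset A, St tail head r0 E m Finset.univ F' := by
  intro n
  induction n with
  | zero =>
    intro S F hS h
    have : S = Finset.univ := by
      rw [Finset.card_eq_zero] at hS
      simpa using congrArg compl hS
    exact ⟨F, this ▸ h⟩
  | succ n ih =>
    intro S F hS h
    have hne : S ≠ Finset.univ := by
      rintro rfl; simp at hS
    obtain ⟨a, _, ha, hst⟩ := step_arc hE h hne
    refine ih (insert (head a) S) (insert a F) ?_ hst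
    rw [Finset.compl_insert, Finset.card_erase_of_mem (by simpa using ha), hS]
    rfl

theorem one_arb {tail head : A → V} {r0 : V} {E : Finset A} {m : ℕ}
    (hE : ∀ X : Finset V, X.Nonempty → r0 ∉ X → m + 1 ≤ (ent tail head E X).card) :
    ∃ T : Finset A, T ⊆ E ∧ Arb tail head r0 T ∧
      ∀ X : Finset V, X.Nonempty → r0 ∉ X → m ≤ (ent tail head (E \ T) X).card := by
  have h0 : St tail head r0 E m {r0} ∅ := by
    refine ⟨by simp, by simp, by simp, by simp, ?_, ?_, ?_⟩
    · intro v hv hvr
      exact absurd (Finset.mem_singleton.mp hv) hvr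
    · intro v hv
      rw [Finset.mem_singleton.mp hv]
    · intro X hX hr
      rw [Finset.sdiff_empty]
      exact (Nat.le_succ m).trans (hE X hX hr)
  obtain ⟨T, hT⟩ := grow hE _ _ _ rfl h0
  exact ⟨T, hT.sub, ⟨hT.nr, fun v hv => hT.uniq v (Finset.mem_univ v) hv,
    fun v => hT.reach v (Finset.mem_univ v)⟩, hT.big⟩

theorem edmonds_aux {tail head : A → V} {r0 : V} (m : ℕ) : ∀ (E : Finset A),
    (∀ X : Finset V, X.Nonempty → r0 ∉ X → m ≤ (ent tail head E X).card) →
    ∃ T : Fin m → Finset A, (∀ i, T i ⊆ E) ∧ (∀ i, Arb tail head r0 (T i)) ∧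
      ∀ i j, i ≠ j → Disjoint (T i) (T j) := by
  induction m with
  | zero => intro E _; exact ⟨fun i => i.elim0, fun i => i.elim0, fun i => i.elim0,
      fun i => i.elim0⟩
  | succ m ih =>
    intro E hE
    obtain ⟨T0, h1, h2, h3⟩ := one_arb hE
    obtain ⟨T, hT1, hT2, hT3⟩ := ih (E \ T0) h3
    have hd : ∀ i, Disjoint T0 (T i) := fun i =>
      Finset.disjoint_left.mpr (fun a ha hb => (Finset.mem_sdiff.mp (hT1 i hb)).2 ha)
    refine ⟨Fin.cons T0 T, fun i => ?_, fun i => ?_, fun i j hij => ?_⟩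
    · refine Fin.cases ?_ (fun i => ?_) i
      · simpa using h1
      · simpa using (hT1 i).trans Finset.sdiff_subset
    · refine Fin.cases ?_ (fun i => ?_) i
      · simpa using h2
      · simpa using hT2 i
    · revert hij
      refine Fin.cases ?_ (fun i => ?_) i
      · refine Fin.cases ?_ (fun j => ?_) j
        · intro h; exact absurd rfl h
        · intro _; simpa using hd j
      · refine Fin.cases ?_ (fun j => ?_) j
        · intro _; simpa using (hd i).symm
        · intro h
          have : i ≠ j := fun hh => h (by rw [hh])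
          simpa using hT3 i j this

/-- **Edmonds' theorem** on disjoint spanning arborescences. -/
theorem edmonds (tail head : A → V) (r0 : V) (m : ℕ)
    (h : ∀ X : Finset V, X.Nonempty → r0 ∉ X →
      m ≤ (Finset.univ.filter (fun a : A => head a ∈ X ∧ tail a ∉ X)).card) :
    ∃ T : Fin m → Finset A, (∀ i, Arb tail head r0 (T i)) ∧
      ∀ i j, i ≠ j → Disjoint (T i) (T j) := by
  obtain ⟨T, _, h1, h2⟩ := edmonds_aux (tail := tail) (head := head) (r0 := r0) m Finset.univ h
  exact ⟨T, h1, h2⟩

/-- **Edmonds' theorem**, disjoint arborescences inside a given arc set. -/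
theorem edmonds_in (tail head : A → V) (r0 : V) (m : ℕ) (E : Finset A)
    (h : ∀ X : Finset V, X.Nonempty → r0 ∉ X →
      m ≤ (E.filter (fun a : A => head a ∈ X ∧ tail a ∉ X)).card) :
    ∃ T : Fin m → Finset A, (∀ i, T i ⊆ E) ∧ (∀ i, Arb tail head r0 (T i)) ∧
      ∀ i j, i ≠ j → Disjoint (T i) (T j) :=
  edmonds_aux (tail := tail) (head := head) (r0 := r0) m E h

omit [Fintype V] [Fintype A] [DecidableEq A] in
/-- an arborescence enters every nonempty set of non-root vertices -/
theorem Arb.enters {tail head : A → V} {r0 : V} {T : Finset A} (hT : Arb tail head r0 T)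
    {X : Finset V} (hX : X.Nonempty) (hr : r0 ∉ X) : ∃ a ∈ T, head a ∈ X ∧ tail a ∉ X := by
  obtain ⟨x, hx⟩ := hX
  have : ∀ v, Relation.ReflTransGen (fun x y : V => ∃ a ∈ T, tail a = x ∧ head a = y) r0 v →
      v ∈ X → ∃ a ∈ T, head a ∈ X ∧ tail a ∉ X := by
    intro v hv
    induction hv with
    | refl => intro h; exact absurd h hr
    | tail _ hab ih =>
      rename_i b c _
      intro hc
      obtain ⟨a, ha, hb, hc'⟩ := hab
      by_cases hbX : b ∈ X
      · exact ih hbX
      · exact ⟨a, ha, hc' ▸ hc, hb ▸ hbX⟩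
  exact this x (hT.2.2 x) hx

omit [Fintype V] in
/-- capacity counting: `m` arborescences obeying `c` give cuts of capacity at least `m` -/
theorem cap_cut {tail head : A → V} {r0 : V} {ι : Type} [Fintype ι] (T : ι → Finset A)
    (hT : ∀ i, Arb tail head r0 (T i)) (c : A → ℕ)
    (hc : ∀ a : A, (Finset.univ.filter (fun i => a ∈ T i)).card ≤ c a)
    (X : Finset V) (hX : X.Nonempty) (hr : r0 ∉ X) :
    Fintype.card ι ≤ ∑ a ∈ Finset.univ.filter (fun a : A => head a ∈ X ∧ tail a ∉ X), c a := by
  classical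
  choose f hf using fun i => (hT i).enters hX hr
  calc Fintype.card ι = (Finset.univ : Finset ι).card := rfl
    _ = ∑ a ∈ Finset.univ.filter (fun a : A => head a ∈ X ∧ tail a ∉ X),
        (Finset.univ.filter (fun i => f i = a)).card := by
      refine Finset.card_eq_sum_card_fiberwise (fun i _ => ?_)
      simpa using (hf i).2
    _ ≤ ∑ a ∈ Finset.univ.filter (fun a : A => head a ∈ X ∧ tail a ∉ X), c a := by
      refine Finset.sum_le_sum (fun a _ => le_trans (Finset.card_le_card ?_) (hc a))
      intro i hi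
      simp only [Finset.mem_filter, Finset.mem_univ, true_and] at hi ⊢
      exact hi ▸ (hf i).1

/-- **Edmonds' theorem**, capacitated. -/
theorem edmonds_cap (tail head : A → V) (r0 : V) (m : ℕ) (c : A → ℕ)
    (h : ∀ X : Finset V, X.Nonempty → r0 ∉ X →
      m ≤ ∑ a ∈ Finset.univ.filter (fun a : A => head a ∈ X ∧ tail a ∉ X), c a) :
    ∃ T : Fin m → Finset A, (∀ i, Arb tail head r0 (T i)) ∧
      ∀ a : A, (Finset.univ.filter (fun i => a ∈ T i)).card ≤ c a := by
  classical
  have hcount : ∀ X : Finset V,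
      (Finset.univ.filter (fun p : (a : A) × Fin (c a) => head p.1 ∈ X ∧ tail p.1 ∉ X)).card =
        ∑ a ∈ Finset.univ.filter (fun a : A => head a ∈ X ∧ tail a ∉ X), c a := by
    intro X
    have : (Finset.univ.filter (fun p : (a : A) × Fin (c a) => head p.1 ∈ X ∧ tail p.1 ∉ X)) =
        (Finset.univ.filter (fun a : A => head a ∈ X ∧ tail a ∉ X)).sigma
          (fun a => (Finset.univ : Finset (Fin (c a)))) := by
      ext p; simp
    rw [this, Finset.card_sigma]
    simp
  obtain ⟨T, hT1, hT2⟩ := edmonds (A := (a : A) × Fin (c a)) (fun p => tail p.1)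
    (fun p => head p.1) r0 m (fun X hX hr => by rw [hcount]; exact h X hX hr)
  refine ⟨fun i => (T i).image Sigma.fst, fun i => ⟨?_, ?_, ?_⟩, fun a => ?_⟩
  · intro a ha
    obtain ⟨p, hp, rfl⟩ := Finset.mem_image.mp ha
    exact (hT1 i).1 p hp
  · intro v hv
    obtain ⟨p, ⟨hp1, hp2⟩, hp3⟩ := (hT1 i).2.1 v hv
    refine ⟨p.1, ⟨Finset.mem_image_of_mem _ hp1, hp2⟩, ?_⟩
    rintro b ⟨hb1, hb2⟩
    obtain ⟨q, hq, rfl⟩ := Finset.mem_image.mp hb1
    rw [hp3 q ⟨hq, hb2⟩]
  · intro v
    refine rmono ?_ ((hT1 i).2.2 v)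
    rintro x y ⟨p, hp, h1, h2⟩
    exact ⟨p.1, Finset.mem_image_of_mem _ hp, h1, h2⟩
  · have hex : ∀ i ∈ Finset.univ.filter (fun i => a ∈ (T i).image Sigma.fst),
        ∃ j : Fin (c a), (⟨a, j⟩ : (a : A) × Fin (c a)) ∈ T i := by
      intro i hi
      simp only [Finset.mem_filter, Finset.mem_univ, true_and] at hi
      obtain ⟨⟨a', j⟩, hp, rfl⟩ := Finset.mem_image.mp hi
      exact ⟨j, hp⟩
    rcases Nat.eq_zero_or_pos (c a) with hc0 | hc0
    · rw [hc0, Nat.le_zero, Finset.card_eq_zero, Finset.eq_empty_iff_forall_notMem]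
      intro i hi
      obtain ⟨j, _⟩ := hex i hi
      exact absurd j.2 (by omega)
    have : Nonempty (Fin (c a)) := ⟨⟨0, hc0⟩⟩
    choose! g hg using hex
    calc (Finset.univ.filter (fun i => a ∈ (T i).image Sigma.fst)).card
        ≤ (Finset.univ : Finset (Fin (c a))).card := by
          refine Finset.card_le_card_of_injOn g (fun i _ => Finset.mem_coe.mpr (Finset.mem_univ _))
            ?_
          intro i hi j hj hij
          by_contra hne
          have h1 := hg i hi
          have h2 := hg j hj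
          rw [hij] at h1
          exact Finset.disjoint_left.mp (hT2 i j hne) h1 h2
      _ = c a := by simp

end Pool.Agent.Edm
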