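import Pool.Agent.Lib_MP_e457e7_ed.Edm

/-!
# The reduction to two k-arborescences (board note 352)

`Good k z`: the vector `z` has in-degree exactly `k` at every non-root vertex and every cut has
`z`-value at least `k`.  `Bal k`: every sum `x + y` of two good vectors is a sum `x' + y'` of two
good vectors which differ by at most one on every arc.

`reduction`: `Bal k` implies the statement of the problem for this `k` and all `l`.
-/

set_option autoImplicit false
set_option linter.unusedSectionVars false

namespace Pool.Agent.Edm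

variable {V A : Type} [Fintype V] [Fintype A] [DecidableEq V] [DecidableEq A]

/-- in-degree `k` at every non-root vertex, nothing enters the root, all cuts at least `k` -/
structure Good (tail head : A → V) (r0 : V) (k : ℕ) (z : A → ℕ) : Prop where
  root : ∀ a, head a = r0 → z a = 0
  deg : ∀ v, v ≠ r0 → ∑ a ∈ Finset.univ.filter (fun a : A => head a = v), z a = k
  cut : ∀ X : Finset V, X.Nonempty → r0 ∉ X →
    k ≤ ∑ a ∈ Finset.univ.filter (fun a : A => head a ∈ X ∧ tail a ∉ X), z a

/-- the balanced splitting property -/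
def Bal (tail head : A → V) (r0 : V) (k : ℕ) : Prop :=
  ∀ x y : A → ℕ, Good tail head r0 k x → Good tail head r0 k y →
    ∃ x' y' : A → ℕ, Good tail head r0 k x' ∧ Good tail head r0 k y' ∧
      (∀ a, x' a + y' a = x a + y a) ∧ ∀ a, x' a ≤ y' a + 1 ∧ y' a ≤ x' a + 1

/-- the sum of `k` arborescences is good -/
theorem good_of_arbs {tail head : A → V} {r0 : V} {ι : Type} [Fintype ι] (T : ι → Finset A)
    (hT : ∀ i, Arb tail head r0 (T i)) :
    Good tail head r0 (Fintype.card ι)
      (fun a => (Finset.univ.filter (fun i => a ∈ T i)).card) := by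
  refine ⟨?_, ?_, ?_⟩
  · intro a ha
    rw [Finset.card_eq_zero, Finset.eq_empty_iff_forall_notMem]
    intro i hi
    simp only [Finset.mem_filter, Finset.mem_univ, true_and] at hi
    exact (hT i).1 a hi ha
  · intro v hv
    choose f hf hf' using fun i => (hT i).2.1 v hv
    have h1 : ∀ a ∈ Finset.univ.filter (fun a : A => head a = v),
        (Finset.univ.filter (fun i => a ∈ T i)).card =
          (Finset.univ.filter (fun i => f i = a)).card := by
      intro a ha
      simp only [Finset.mem_filter, Finset.mem_univ, true_and] at ha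
      congr 1
      ext i
      simp only [Finset.mem_filter, Finset.mem_univ, true_and]
      constructor
      · intro hi; exact (hf' i a ⟨hi, ha⟩).symm
      · intro hi; exact hi ▸ (hf i).1
    rw [Finset.sum_congr rfl h1, ← Finset.card_eq_sum_card_fiberwise (fun i _ => ?_)]
    · simp
    · simpa using (hf i).2
  · intro X hX hr
    exact cap_cut T hT _ (fun a => le_rfl) X hX hr

/-- a good 0/1 vector contains `k` disjoint arborescences -/
theorem arbs_of_good {tail head : A → V} {r0 : V} {k : ℕ} {z : A → ℕ}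
    (hz : Good tail head r0 k z) (h1 : ∀ a, z a ≤ 1) :
    ∃ T : Fin k → Finset A, (∀ i, Arb tail head r0 (T i)) ∧
      (∀ i j, i ≠ j → Disjoint (T i) (T j)) ∧ ∀ i, ∀ a ∈ T i, z a = 1 := by
  obtain ⟨T, h2, h3, h4⟩ := edmonds_in tail head r0 k
    (Finset.univ.filter (fun a : A => z a = 1)) (fun X hX hr => by
      refine (hz.cut X hX hr).trans (le_of_eq ?_)
      rw [Finset.card_filter, Finset.sum_filter, Finset.sum_filter]
      refine Finset.sum_congr rfl (fun a _ => ?_)
      have := h1 a
      by_cases hc : head a ∈ X ∧ tail a ∉ X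
      · rw [if_pos hc, if_pos hc]
        split_ifs with h5
        · exact h5
        · omega
      · rw [if_neg hc, if_neg hc]
        split_ifs <;> rfl)
  exact ⟨T, h3, h4, fun i a ha => by simpa using h2 i ha⟩

/-- convexity: balancing does not increase the sum of squares, and strictly decreases it if the
pair was unbalanced -/
theorem sq_lt {p q p' q' : ℕ} (h : p' + q' = p + q) (h1 : p' ≤ q' + 1) (h2 : q' ≤ p' + 1) :
    p' * p' + q' * q' ≤ p * p + q * q := by
  rcases le_total p q with hpq | hpq
  · rcases le_total p' q' with h3 | h3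
    · obtain ⟨d, hd⟩ : ∃ d, p' = p + d := by
        rcases Nat.lt_or_ge p' p with h4 | h4
        · omega
        · exact ⟨p' - p, by omega⟩
      obtain ⟨e, rfl⟩ : ∃ e, q' = p' + e := ⟨q' - p', by omega⟩
      have hq : q = p + 2 * d + e := by omega
      subst hd; subst hq; nlinarith
    · obtain ⟨d, hd⟩ : ∃ d, q' = p + d := by
        rcases Nat.lt_or_ge q' p with h4 | h4
        · omega
        · exact ⟨q' - p, by omega⟩
      obtain ⟨e, rfl⟩ : ∃ e, p' = q' + e := ⟨p' - q', by omega⟩
      have hq : q = p + 2 * d + e := by omega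
      subst hd; subst hq; nlinarith
  · rcases le_total p' q' with h3 | h3
    · obtain ⟨d, hd⟩ : ∃ d, p' = q + d := by
        rcases Nat.lt_or_ge p' q with h4 | h4
        · omega
        · exact ⟨p' - q, by omega⟩
      obtain ⟨e, rfl⟩ : ∃ e, q' = p' + e := ⟨q' - p', by omega⟩
      have hq : p = q + 2 * d + e := by omega
      subst hd; subst hq; nlinarith
    · obtain ⟨d, hd⟩ : ∃ d, q' = q + d := by
        rcases Nat.lt_or_ge q' q with h4 | h4
        · omega
        · exact ⟨q' - q, by omega⟩
      obtain ⟨e, rfl⟩ : ∃ e, p' = q' + e := ⟨p' - q', by omega⟩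
      have hq : p = q + 2 * d + e := by omega
      subst hd; subst hq; nlinarith

theorem sq_lt' {p q p' q' : ℕ} (h : p' + q' = p + q) (h1 : p' ≤ q' + 1) (h2 : q' ≤ p' + 1)
    (h3 : q + 2 ≤ p) :
    p' * p' + q' * q' < p * p + q * q := by
  have h4 : (p - 1) * (p - 1) + (q + 1) * (q + 1) < p * p + q * q := by
    obtain ⟨d, rfl⟩ : ∃ d, p = q + 2 + d := ⟨p - (q + 2), by omega⟩
    have : q + 2 + d - 1 = q + 1 + d := by omega
    rw [this]
    nlinarith
  refine lt_of_le_of_lt (sq_lt (p := p - 1) (q := q + 1) ?_ h1 h2) h4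
  omega

/-- an integral family of good vectors with given sum which is pairwise balanced -/
theorem exists_balanced {tail head : A → V} {r0 : V} {k : ℕ} (hB : Bal tail head r0 k) {l : ℕ}
    (z : Fin l → A → ℕ) (hz : ∀ i, Good tail head r0 k (z i)) :
    ∃ w : Fin l → A → ℕ, (∀ i, Good tail head r0 k (w i)) ∧
      (∀ a, ∑ i, w i a = ∑ i, z i a) ∧ ∀ i j a, w i a ≤ w j a + 1 := by
  classical
  -- minimise the sum of squares
  let P : ℕ → Prop := fun n => ∃ w : Fin l → A → ℕ, (∀ i, Good tail head r0 k (w i)) ∧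
      (∀ a, ∑ i, w i a = ∑ i, z i a) ∧ ∑ i, ∑ a, w i a * w i a = n
  have hP : ∃ n, P n := ⟨_, z, hz, fun a => rfl, rfl⟩
  obtain ⟨w, hw1, hw2, hw3⟩ := Nat.find_spec hP
  refine ⟨w, hw1, hw2, ?_⟩
  by_contra hcon
  push Not at hcon
  obtain ⟨i, j, a, hij⟩ := hcon
  have hne : i ≠ j := by
    rintro rfl; omega
  obtain ⟨x', y', hx', hy', hs, hb⟩ := hB (w i) (w j) (hw1 i) (hw1 j)
  let w' : Fin l → A → ℕ := fun t => if t = i then x' else if t = j then y' else w t
  have hwi : w' i = x' := by simp [w']
  have hwj : w' j = y' := by simp [w', hne.symm]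
  have hwt : ∀ t, t ≠ i → t ≠ j → w' t = w t := by
    intro t h1 h2; simp [w', h1, h2]
  have hsplit : ∀ (f : Fin l → ℕ), ∑ t, f t = f i + f j +
      ∑ t ∈ (Finset.univ.erase i).erase j, f t := by
    intro f
    rw [← Finset.add_sum_erase _ f (Finset.mem_univ i),
      ← Finset.add_sum_erase _ f (Finset.mem_erase.mpr ⟨hne.symm, Finset.mem_univ j⟩), add_assoc]
  have hrest : ∀ (F : (A → ℕ) → ℕ), ∑ t ∈ (Finset.univ.erase i).erase j, F (w' t) =
      ∑ t ∈ (Finset.univ.erase i).erase j, F (w t) := by
    intro F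
    refine Finset.sum_congr rfl (fun t ht => ?_)
    rw [Finset.mem_erase, Finset.mem_erase] at ht
    rw [hwt t ht.2.1 ht.1]
  have hP' : P (∑ i, ∑ a, w' i a * w' i a) := by
    refine ⟨w', ?_, ?_, rfl⟩
    · intro t
      by_cases h1 : t = i
      · rw [h1, hwi]; exact hx'
      · by_cases h2 : t = j
        · rw [h2, hwj]; exact hy'
        · rw [hwt t h1 h2]; exact hw1 t
    · intro b
      rw [← hw2 b, hsplit (fun t => w' t b), hsplit (fun t => w t b),
        hrest (fun u => u b), hwi, hwj, hs b]
  have hlt : ∑ i, ∑ a, w' i a * w' i a < ∑ i, ∑ a, w i a * w i a := by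
    rw [hsplit (fun t => ∑ a, w' t a * w' t a), hsplit (fun t => ∑ a, w t a * w t a),
      hrest (fun u => ∑ a, u a * u a), hwi, hwj]
    refine Nat.add_lt_add_right ?_ _
    rw [← Finset.sum_add_distrib, ← Finset.sum_add_distrib]
    refine Finset.sum_lt_sum (fun b _ => sq_lt (hs b) (hb b).1 (hb b).2)
      ⟨a, Finset.mem_univ a, sq_lt' (hs a) (hb a).1 (hb a).2 (by omega)⟩
  have := Nat.find_min' hP hP'
  omega

/-- **The l-reduction.**  `Bal k` implies the statement of the problem for `k` and every `l`. -/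
theorem reduction {tail head : A → V} {r0 : V} {k l : ℕ} (hB : Bal tail head r0 k)
    (c : A → ℕ) (hc : ∀ a, c a ≤ l)
    (T : Fin (k * l) → Finset A) (hT : ∀ i, Arb tail head r0 (T i))
    (hcap : ∀ a : A, (Finset.univ.filter (fun i => a ∈ T i)).card ≤ c a) :
    ∃ B : Fin l → Fin k → Finset A,
      (∀ i j, Arb tail head r0 (B i j)) ∧
      (∀ i : Fin l, ∀ j j' : Fin k, j ≠ j' → Disjoint (B i j) (B i j')) ∧
      ∀ a : A, (Finset.univ.filter
          (fun p : Fin l × Fin k => a ∈ B p.1 p.2)).card ≤ c a := by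
  classical
  let e : Fin l × Fin k ≃ Fin (k * l) :=
    (finProdFinEquiv (m := l) (n := k)).trans (finCongr (Nat.mul_comm l k))
  let z : Fin l → A → ℕ := fun i a => (Finset.univ.filter (fun j => a ∈ T (e (i, j)))).card
  have hz : ∀ i, Good tail head r0 k (z i) := by
    intro i
    have := good_of_arbs (fun j : Fin k => T (e (i, j))) (fun j => hT _)
    simpa [Fintype.card_fin] using this
  have hzsum : ∀ a, ∑ i, z i a ≤ c a := by
    intro a
    refine le_trans (le_of_eq ?_) (hcap a)
    have h1 : (Finset.univ.filter (fun i => a ∈ T i)).card =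
        (Finset.univ.filter (fun p : Fin l × Fin k => a ∈ T (e p))).card := by
      symm
      refine Finset.card_bij (fun p _ => e p) ?_ ?_ ?_
      · intro p hp; simpa using hp
      · intro p _ q _ h; exact e.injective h
      · intro q hq
        exact ⟨e.symm q, by simpa using hq, by simp⟩
    rw [h1, Finset.card_eq_sum_card_fiberwise (f := fun p : Fin l × Fin k => p.1)
      (t := Finset.univ) (fun p _ => Finset.mem_coe.mpr (Finset.mem_univ _))]
    refine Finset.sum_congr rfl (fun i _ => ?_)
    refine Finset.card_bij (fun j _ => (i, j)) ?_ ?_ ?_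
    · intro j hj; simpa using hj
    · intro j _ j' _ h; simpa using h
    · rintro ⟨i', j⟩ hq
      simp only [Finset.mem_filter, Finset.mem_univ, true_and] at hq
      obtain ⟨h1, rfl⟩ := hq
      exact ⟨j, by simpa using h1, rfl⟩
  obtain ⟨w, hw1, hw2, hw3⟩ := exists_balanced hB z hz
  have hle : ∀ i a, w i a ≤ 1 := by
    intro i a
    by_contra hcon
    have h1 : ∀ j, 1 ≤ w j a := fun j => by have := hw3 i j a; omega
    have h2 : ∑ j : Fin l, 1 < ∑ j, w j a :=
      Finset.sum_lt_sum (fun j _ => h1 j) ⟨i, Finset.mem_univ i, by omega⟩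
    have h3 := hzsum a
    have h4 := hc a
    rw [← hw2 a] at h3
    simp at h2
    omega
  choose B hB1 hB2 hB3 using fun i => arbs_of_good (hw1 i) (hle i)
  refine ⟨B, hB1, hB2, fun a => le_trans ?_ (hzsum a)⟩
  rw [← hw2 a, Finset.card_eq_sum_card_fiberwise (f := fun p : Fin l × Fin k => p.1)
      (t := Finset.univ) (fun p _ => Finset.mem_coe.mpr (Finset.mem_univ _))]
  refine Finset.sum_le_sum (fun i _ => ?_)
  by_cases hne : (Finset.filter (fun p : Fin l × Fin k => p.1 = i)
      (Finset.univ.filter (fun p : Fin l × Fin k => a ∈ B p.1 p.2))).Nonempty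
  · obtain ⟨⟨i', j⟩, hp⟩ := hne
    simp only [Finset.mem_filter, Finset.mem_univ, true_and] at hp
    obtain ⟨hp1, rfl⟩ := hp
    rw [hB3 _ j a hp1]
    rw [Finset.card_le_one]
    rintro ⟨i1, j1⟩ h1 ⟨i2, j2⟩ h2
    simp only [Finset.mem_filter, Finset.mem_univ, true_and] at h1 h2
    obtain ⟨h1, rfl⟩ := h1
    obtain ⟨h2, rfl⟩ := h2
    by_contra hcon
    have hj : j1 ≠ j2 := fun hh => hcon (by rw [hh])
    exact Finset.disjoint_left.mp (hB2 _ j1 j2 hj) h1 h2
  · rw [Finset.not_nonempty_iff_eq_empty] at hne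
    rw [hne]
    simp

end Pool.Agent.Edm
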